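import Pool.Agent.J6H36.LF.Stm

/-!
# LF-SMALL: many small algebraically independent elements of a complete valued field

The small elements generate the field, so they contain a transcendence basis over the countable
field; by cardinality it has as many elements as the field.
-/

set_option autoImplicit false

universe u

namespace Pool.Agent.J6H63.LF.Small

open Cardinal

theorem isAlgebraic_small (P : Type) [Field P] (K : Type u) [NontriviallyNormedField K]
    [Algebra P K] (ε : ℝ) (hε : 0 < ε) :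
    Algebra.IsAlgebraic (Algebra.adjoin P {x : K | ‖x‖ < ε}) K := by
  obtain ⟨π, hπ0, hπ1⟩ := NormedField.exists_norm_lt_one K
  have hlim : ∀ x : K, ∀ᶠ n : ℕ in Filter.atTop, ‖π ^ n * x‖ < ε := by
    intro x
    have h1 : Filter.Tendsto (fun n : ℕ => ‖π‖ ^ n * ‖x‖) Filter.atTop (nhds (0 * ‖x‖)) :=
      (tendsto_pow_atTop_nhds_zero_of_lt_one hπ0.le hπ1).mul_const _
    rw [zero_mul] at h1
    filter_upwards [h1.eventually (gt_mem_nhds hε)] with n hn
    rwa [norm_mul, norm_pow]
  constructor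
  intro x
  obtain ⟨n, h1, h2⟩ := ((hlim 1).and (hlim x)).exists
  rw [mul_one] at h1
  set a : Algebra.adjoin P {x : K | ‖x‖ < ε} := ⟨π ^ n, Algebra.subset_adjoin h1⟩ with ha
  set b : Algebra.adjoin P {x : K | ‖x‖ < ε} := ⟨π ^ n * x, Algebra.subset_adjoin h2⟩ with hb
  have hπ : π ≠ 0 := norm_pos_iff.1 hπ0
  have ha0 : a ≠ 0 := by
    intro h
    have h3 : ((a : K)) = 0 := by rw [h]; rfl
    exact pow_ne_zero n hπ h3
  refine ⟨Polynomial.C a * Polynomial.X - Polynomial.C b, ?_, ?_⟩
  · intro h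
    have h3 := congrArg (fun q => Polynomial.coeff q 1) h
    simp at h3
    exact ha0 h3
  · simp only [map_sub, map_mul, Polynomial.aeval_C, Polynomial.aeval_X]
    change π ^ n * x - π ^ n * x = 0
    exact sub_self _

theorem card_le (P : Type) [Field P] [Countable P] (K : Type u) [Field K] [Algebra P K]
    (hK : ℵ₀ < #K) (B : Set K) (hB : IsTranscendenceBasis P ((↑) : B → K)) : #K ≤ #B := by
  have h1 := hB.isAlgebraic
  have h2 : #K ≤ max #(Algebra.adjoin P (Set.range ((↑) : B → K))) ℵ₀ :=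
    Algebra.IsAlgebraic.cardinalMk_le_max _ K
  have h3 : #(Algebra.adjoin P (Set.range ((↑) : B → K))) = #(MvPolynomial B P) :=
    (Cardinal.mk_congr hB.1.aevalEquiv.toEquiv).symm
  have h4 : #(MvPolynomial B P) ≤ lift.{u} #P ⊔ lift.{0} #B ⊔ ℵ₀ :=
    MvPolynomial.cardinalMk_le_max_lift
  have h5 : lift.{u} #P ≤ ℵ₀ := by
    rw [lift_le_aleph0]
    exact Cardinal.mk_le_aleph0
  have h6 : #K ≤ max #B ℵ₀ := by
    refine h2.trans (max_le ?_ (le_max_right _ _))
    rw [h3]
    refine h4.trans ?_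
    rw [lift_id'.{0, u}]
    exact max_le (max_le (h5.trans (le_max_right _ _)) (le_max_left _ _)) (le_max_right _ _)
  rcases le_max_iff.1 h6 with h | h
  · exact h
  · exact absurd hK (not_lt.2 h)

/-- LF-SMALL. -/
theorem t_SMALL : Pool.Agent.J6H36.LF.S_SMALL.{u} := by
  intro P _ _ K _ _ _ I _ ε hε
  have hcont : 𝔠 ≤ #K := continuum_le_cardinal_of_nontriviallyNormedField K
  have hK : ℵ₀ < #K := lt_of_lt_of_le aleph0_lt_continuum hcont
  have := isAlgebraic_small P K ε hε
  obtain ⟨B, hBU, hB⟩ := exists_isTranscendenceBasis_subset (R := P) {x : K | ‖x‖ < ε}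
  have h1 : #K ≤ #B := card_le P K hK B hB
  have h2 : #(K × I) ≤ #B := by
    refine le_trans ?_ h1
    rw [Cardinal.mk_prod]
    refine Cardinal.mul_le_of_le hK.le ?_ ?_
    · rw [lift_id'.{0, u}]
    · exact (lift_lt_aleph0.2 (Cardinal.lt_aleph0_of_finite I)).le.trans hK.le
  obtain ⟨g⟩ := (Cardinal.le_def _ _).1 h2
  exact ⟨fun p => (g p : K), hB.1.comp g g.injective, fun p => hBU (g p).2⟩

end Pool.Agent.J6H63.LF.Small
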